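import Pool.Agent.helper76.FP.Spec

/-!
# Row fp:ONE (MP_bf63dc_nt): one pair of facing labels
-/

set_option autoImplicit false

namespace Pool.Agent.FP

open Finset
open Pool.Agent.FR (mean)
open Pool.Agent.AT (Qk Pair)
open Pool.Agent.HF (Om TC)
open Pool.Agent.DP (Fm PrE CORE2_stmt)

theorem ONE_mono {α : Type} [Fintype α] {f g : α → ℝ} (h : ∀ x, f x ≤ g x) : mean f ≤ mean g :=
  div_le_div_of_nonneg_right (sum_le_sum fun x _ => h x) (Nat.cast_nonneg _)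

theorem ONE_nonneg {α : Type} [Fintype α] {f : α → ℝ} (h : ∀ x, 0 ≤ f x) : 0 ≤ mean f :=
  div_nonneg (sum_nonneg fun x _ => h x) (Nat.cast_nonneg _)

theorem ONE_le_one {α : Type} [Fintype α] {f : α → ℝ} (h : ∀ x, f x ≤ 1) : mean f ≤ 1 := by
  unfold Pool.Agent.FR.mean
  refine div_le_one_of_le₀ ?_ (Nat.cast_nonneg _)
  calc ∑ x, f x ≤ ∑ _x : α, (1 : ℝ) := sum_le_sum fun x _ => h x
    _ = Fintype.card α := by rw [sum_const, card_univ, nsmul_eq_mul, mul_one]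

theorem ONE_ge {α : Type} [Fintype α] {f : α → ℝ} (h : ∀ x, -1 ≤ f x) : -1 ≤ mean f := by
  have h1 : mean (fun x => - f x) ≤ 1 := ONE_le_one fun x => by linarith [h x]
  have h2 : mean (fun x => - f x) = - mean f := by
    unfold Pool.Agent.FR.mean
    rw [sum_neg_distrib, neg_div]
  linarith

theorem ONE_tc (a b s t : ℕ) (h h' : ℤ) (hb : 1 ≤ b) (hs : 1 ≤ s) (hab : Nat.Coprime a b) (hst : a * s = b * t) (hP : Pair (s, h) (t, h')) :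
    TC a b ((a : ℤ) * h - b * h') := by
  have h1 : b ∣ s := by
    have : b ∣ a * s := ⟨t, hst⟩
    exact (Nat.Coprime.dvd_mul_left hab.symm).1 this
  obtain ⟨u, hu⟩ := h1
  have hu0 : 0 < u := by
    rcases Nat.eq_zero_or_pos u with h2 | h2
    · rw [h2, mul_zero] at hu
      omega
    · exact h2
  have ht : t = a * u := by
    have h2 : b * (a * u) = b * t := by rw [← hst, hu]; ring
    exact (Nat.eq_of_mul_eq_mul_left hb h2).symm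
  have hg : Nat.gcd s t = u := by
    rw [hu, ht, Nat.gcd_mul_right]
    have : Nat.gcd b a = 1 := hab.symm
    rw [this, one_mul]
  unfold Pool.Agent.AT.Pair at hP
  dsimp only at hP
  rw [hg] at hP
  have e1 : t / u = a := by rw [ht, Nat.mul_div_cancel _ hu0]
  have e2 : s / u = b := by rw [hu, Nat.mul_div_cancel _ hu0]
  have e3 : ((t : ℤ) * h - s * h') / (u : ℤ) = a * h - b * h' := by
    have : (t : ℤ) * h - s * h' = u * (a * h - b * h') := by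
      rw [ht, hu]
      push_cast
      ring
    rw [this, Int.mul_ediv_cancel_left _ (by exact_mod_cast hu0.ne')]
  rw [e1, e2, e3] at hP
  exact hP

theorem ONE_rd (s t : ℕ) (hs : 1 ≤ s) (ht : 1 ≤ t) : 1 ≤ (rd s t).1 ∧ 1 ≤ (rd s t).2 ∧ (rd s t).1 ≤ t ∧ (rd s t).2 ≤ s ∧
    Nat.Coprime (rd s t).1 (rd s t).2 ∧ (rd s t).1 * s = (rd s t).2 * t := by
  have hg : 0 < Nat.gcd s t := Nat.gcd_pos_of_pos_left _ hs
  obtain ⟨x, hx⟩ := Nat.gcd_dvd_left s t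
  obtain ⟨y, hy⟩ := Nat.gcd_dvd_right s t
  have e1 : (rd s t).1 = y := by
    show t / Nat.gcd s t = y
    exact Nat.div_eq_of_eq_mul_right hg hy
  have e2 : (rd s t).2 = x := by
    show s / Nat.gcd s t = x
    exact Nat.div_eq_of_eq_mul_right hg hx
  have hc : Nat.Coprime (rd s t).1 (rd s t).2 := (Nat.coprime_div_gcd_div_gcd hg).symm
  rw [e1, e2] at hc ⊢
  refine ⟨?_, ?_, ?_, ?_, hc, ?_⟩
  · rcases Nat.eq_zero_or_pos y with h | h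
    · rw [h, mul_zero] at hy
      omega
    · exact h
  · rcases Nat.eq_zero_or_pos x with h | h
    · rw [h, mul_zero] at hx
      omega
    · exact h
  · rw [← e1]
    exact Nat.div_le_self _ _
  · rw [← e2]
    exact Nat.div_le_self _ _
  · have h1 : y * s = y * (Nat.gcd s t * x) := by rw [← hx]
    have h2 : x * t = x * (Nat.gcd s t * y) := by rw [← hy]
    rw [h1, h2]
    ring

theorem ONE_fa (r : ℕ × ℕ) (c : ℤ) : 0 ≤ fa r c ∧ fa r c ≤ 1 := by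
  unfold fa
  split_ifs <;> norm_num

open Classical in
theorem ONE_good (hCOR : COR_stmt) (hCNX : CNX_stmt) {J : ℕ} {EE : Type} [Fintype EE] (X m D D' l s₁ s₂ w₁ w₂ : ℕ) (o₁ o₂ : ℤ)
    (Del : Fin J → EE → ℤ) (π π' : Fin J → Option EE) (A A' : Fin X → ℝ) (ε δ e₁ : ℝ)
    (hX : 1 ≤ X) (hl : 1 ≤ l) (hε : 0 < ε) (hε1 : ε ≤ 1) (he₁ : 0 ≤ e₁) (hs₁ : 1 ≤ s₁) (hs₂ : 1 ≤ s₂) (hm₁ : s₁ ≤ m) (hm₂ : s₂ ≤ m)
    (hne : w₁ ≠ w₂) (hw₁ : 1 ≤ w₁) (hww : s₂ * w₁ = s₁ * w₂) (hoo : ((rd s₁ s₂).1 : ℤ) * o₁ - (rd s₁ s₂).2 * o₂ = ((rd s₁ s₂).1 * s₁ : ℕ) * (tr Del π - tr Del π'))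
    (hA : ∀ u, 0 ≤ A u ∧ A u ≤ 1) (hA' : ∀ u, 0 ≤ A' u ∧ A' u ≤ 1)
    (hP : (mean fun z : Fin X × Fin X => if PrE (w₁, 1 + o₁ + (D : ℤ) * ((z.1 : ℕ) : ℤ)) (w₂, 1 + o₂ + (D : ℤ) * ((z.2 : ℕ) : ℤ)) then 0 else A z.1 * A' z.2) ≤ δ)
    (hF : (#{v ∈ Icc (-((m * X : ℕ) : ℤ)) (m * X : ℕ) | Fm (fa (rd s₁ s₂)) (D * D') l (cf s₁ s₂ D Del π π' v) < ε / 2} : ℝ) ≤ e₁ * (2 * (m * X : ℕ) + 1)) :
    ε / 2 * (mean A * mean A') - 3 * m * e₁ - δ ≤ mean fun z : Fin X × Fin X => A z.1 * A' z.2 *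
      (Fm (fa (rd s₁ s₂)) (D * D') l (cf s₁ s₂ D Del π π' ((rd s₁ s₂).1 * ((z.1 : ℕ) : ℤ) - (rd s₁ s₂).2 * ((z.2 : ℕ) : ℤ))) -
        fa (rd s₁ s₂) (cf s₁ s₂ D Del π π' ((rd s₁ s₂).1 * ((z.1 : ℕ) : ℤ) - (rd s₁ s₂).2 * ((z.2 : ℕ) : ℤ)))) := by
  obtain ⟨ha1, hb1, ham, hbm, hcop, hab⟩ := ONE_rd s₁ s₂ hs₁ hs₂
  have hst : (rd s₁ s₂).1 * w₁ = (rd s₁ s₂).2 * w₂ := by
    have h1 : s₁ * ((rd s₁ s₂).1 * w₁) = s₁ * ((rd s₁ s₂).2 * w₂) := by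
      calc s₁ * ((rd s₁ s₂).1 * w₁) = ((rd s₁ s₂).1 * s₁) * w₁ := by ring
        _ = (rd s₁ s₂).2 * (s₂ * w₁) := by rw [hab]; ring
        _ = s₁ * ((rd s₁ s₂).2 * w₂) := by rw [hww]; ring
    exact Nat.eq_of_mul_eq_mul_left hs₁ h1
  have h1 := hCNX (rd s₁ s₂).1 (rd s₁ s₂).2 m X e₁ (fun v => Fm (fa (rd s₁ s₂)) (D * D') l (cf s₁ s₂ D Del π π' v) < ε / 2)
    ha1 hb1 (ham.trans hm₂) (hbm.trans hm₁) hX he₁ (by
      refine le_trans (le_of_eq ?_) hF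
      congr 2)
  refine hCOR X A A' _ _ ε (3 * m * e₁) δ hX hε hε1 hA hA' ?_ ?_ ?_
  · intro z
    unfold Pool.Agent.DP.Fm
    exact ⟨ONE_nonneg fun k => (ONE_fa _ _).1, ONE_le_one fun k => (ONE_fa _ _).2⟩
  · refine le_trans (le_of_eq ?_) h1
    unfold Pool.Agent.FR.mean
    congr 1
  · refine le_trans (ONE_mono fun z => ?_) hP
    have hAA : 0 ≤ A z.1 * A' z.2 := mul_nonneg (hA _).1 (hA' _).1
    by_cases h2 : PrE (w₁, 1 + o₁ + (D : ℤ) * ((z.1 : ℕ) : ℤ)) (w₂, 1 + o₂ + (D : ℤ) * ((z.2 : ℕ) : ℤ))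
    · rw [if_pos h2]
      have h3 : Pair (w₁, 1 + o₁ + (D : ℤ) * ((z.1 : ℕ) : ℤ)) (w₂, 1 + o₂ + (D : ℤ) * ((z.2 : ℕ) : ℤ)) := by
        rcases h2 with h2 | h2
        · exact absurd (congrArg Prod.fst h2) hne
        · exact h2
      have h4 := ONE_tc _ _ w₁ w₂ _ _ hb1 hw₁ hcop hst h3
      have h5 : ((rd s₁ s₂).1 : ℤ) * (1 + o₁ + (D : ℤ) * ((z.1 : ℕ) : ℤ)) - (rd s₁ s₂).2 * (1 + o₂ + (D : ℤ) * ((z.2 : ℕ) : ℤ)) =
          cf s₁ s₂ D Del π π' ((rd s₁ s₂).1 * ((z.1 : ℕ) : ℤ) - (rd s₁ s₂).2 * ((z.2 : ℕ) : ℤ)) := by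
        unfold cf
        rw [← hoo]
        ring
      rw [h5] at h4
      have h6 : fa (rd s₁ s₂) (cf s₁ s₂ D Del π π' ((rd s₁ s₂).1 * ((z.1 : ℕ) : ℤ) - (rd s₁ s₂).2 * ((z.2 : ℕ) : ℤ))) = 0 := by
        unfold fa
        rw [if_pos h4]
      rw [h6, mul_zero]
    · rw [if_neg h2]
      exact mul_le_of_le_one_right hAA (ONE_fa _ _).2

theorem ONE (hCOR : COR_stmt) (hCNX : CNX_stmt) : ONE_stmt := by
  classical
  intro k J G X m D D' l EE _ s p q Del w o T f ε η δ e₁ e π π' hk hG hX hD hl hε hε1 hη hδ he₁ hs hsi hpq hw hT hf hPr hF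
  have hG0 : (0 : ℝ) < G := by exact_mod_cast hG
  set R : Fin G → ℝ := fun φ => mean fun z : Fin X × Fin X => f (T (π, p e) φ) z.1 * f (T (π', q e) φ) z.2 *
      (Fm (fa (rd (s (p e)) (s (q e)))) (D * D') l (cf (s (p e)) (s (q e)) D Del π π' ((rd (s (p e)) (s (q e))).1 * ((z.1 : ℕ) : ℤ) - (rd (s (p e)) (s (q e))).2 * ((z.2 : ℕ) : ℤ))) -
        fa (rd (s (p e)) (s (q e))) (cf (s (p e)) (s (q e)) D Del π π' ((rd (s (p e)) (s (q e))).1 * ((z.1 : ℕ) : ℤ) - (rd (s (p e)) (s (q e))).2 * ((z.2 : ℕ) : ℤ)))) with hR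
  set M : Fin G → ℝ := fun φ => mean (f (T (π, p e) φ)) * mean (f (T (π', q e) φ)) with hM
  have hM1 : ∀ φ, 0 ≤ M φ ∧ M φ ≤ 1 := by
    intro φ
    have h1 : 0 ≤ mean (f (T (π, p e) φ)) := ONE_nonneg fun u => (hf _ u).1
    have h2 : 0 ≤ mean (f (T (π', q e) φ)) := ONE_nonneg fun u => (hf _ u).1
    have h3 : mean (f (T (π, p e) φ)) ≤ 1 := ONE_le_one fun u => (hf _ u).2
    have h4 : mean (f (T (π', q e) φ)) ≤ 1 := ONE_le_one fun u => (hf _ u).2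
    exact ⟨mul_nonneg h1 h2, mul_le_one₀ h3 h2 h4⟩
  let P₁ : Fin G → Prop := fun γ => w (T (π, p e) γ) = s (p e) * w γ ∧ o (T (π, p e) γ) = s (p e) * o γ + s (p e) * tr Del π
  let P₂ : Fin G → Prop := fun γ => w (T (π', q e) γ) = s (q e) * w γ ∧ o (T (π', q e) γ) = s (q e) * o γ + s (q e) * tr Del π'
  have hb1 : (#{γ | ¬ P₁ γ} : ℝ) ≤ η * G := hT (π, p e)
  have hb2 : (#{γ | ¬ P₂ γ} : ℝ) ≤ η * G := hT (π', q e)
  have hRge : ∀ φ, -1 ≤ R φ := by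
    intro φ
    refine ONE_ge fun z => ?_
    have h1 : 0 ≤ f (T (π, p e) φ) z.1 * f (T (π', q e) φ) z.2 := mul_nonneg (hf _ _).1 (hf _ _).1
    have h2 : f (T (π, p e) φ) z.1 * f (T (π', q e) φ) z.2 ≤ 1 := mul_le_one₀ (hf _ _).2 (hf _ _).1 (hf _ _).2
    have h3 : 0 ≤ Fm (fa (rd (s (p e)) (s (q e)))) (D * D') l (cf (s (p e)) (s (q e)) D Del π π' ((rd (s (p e)) (s (q e))).1 * ((z.1 : ℕ) : ℤ) - (rd (s (p e)) (s (q e))).2 * ((z.2 : ℕ) : ℤ))) := by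
      unfold Pool.Agent.DP.Fm
      exact ONE_nonneg fun k => (ONE_fa _ _).1
    have h4 := (ONE_fa (rd (s (p e)) (s (q e))) (cf (s (p e)) (s (q e)) D Del π π' ((rd (s (p e)) (s (q e))).1 * ((z.1 : ℕ) : ℤ) - (rd (s (p e)) (s (q e))).2 * ((z.2 : ℕ) : ℤ)))).2
    nlinarith
  have hpt : ∀ φ, ε / 2 * M φ - 3 * m * e₁ - δ - 2 * ((if ¬ P₁ φ then 1 else 0) + (if ¬ P₂ φ then 1 else 0)) ≤ R φ := by
    intro φ
    have hbad : ∀ x y : ℝ, 0 ≤ x → 0 ≤ y → 1 ≤ x + y → ε / 2 * M φ - 3 * m * e₁ - δ - 2 * (x + y) ≤ R φ := by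
      intro x y hx hy hxy
      have h1 := hRge φ
      have h2 := hM1 φ
      have h3 : ε / 2 * M φ ≤ 1 := by nlinarith [h2.1, h2.2]
      have h4 : 0 ≤ 3 * (m : ℝ) * e₁ := by positivity
      linarith
    by_cases h1 : P₁ φ
    · by_cases h2 : P₂ φ
      · rw [if_neg (not_not.2 h1), if_neg (not_not.2 h2)]
        have hs1 := hs (p e)
        have hs2 := hs (q e)
        have hwne : w (T (π, p e) φ) ≠ w (T (π', q e) φ) := by
          rw [h1.1, h2.1]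
          intro h
          exact hpq e (hsi (Nat.eq_of_mul_eq_mul_right (hw φ) h))
        obtain ⟨ha1, hb1', ham, hbm, hcop, hab⟩ := ONE_rd (s (p e)) (s (q e)) hs1.1 hs2.1
        have h3 := ONE_good hCOR hCNX X m D D' l (s (p e)) (s (q e)) (w (T (π, p e) φ)) (w (T (π', q e) φ)) (o (T (π, p e) φ)) (o (T (π', q e) φ))
          Del π π' (f (T (π, p e) φ)) (f (T (π', q e) φ)) ε δ e₁ hX hl hε hε1 he₁ hs1.1 hs2.1 hs1.2 hs2.2 hwne (hw _)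
          (by rw [h1.1, h2.1]; ring)
          (by
            rw [h1.2, h2.2]
            have h4 : (((rd (s (p e)) (s (q e))).1 : ℤ)) * s (p e) = (rd (s (p e)) (s (q e))).2 * s (q e) := by exact_mod_cast hab
            push_cast
            have h5 : ((rd (s (p e)) (s (q e))).1 : ℤ) * (s (p e) * o φ + s (p e) * tr Del π) - (rd (s (p e)) (s (q e))).2 * (s (q e) * o φ + s (q e) * tr Del π') =
                (((rd (s (p e)) (s (q e))).1 : ℤ) * s (p e)) * (o φ + tr Del π) - ((rd (s (p e)) (s (q e))).2 * s (q e)) * (o φ + tr Del π') := by ring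
            rw [h5, ← h4]
            ring)
          (hf _) (hf _) (hPr _ _ (fun h => hwne (by rw [h]))) hF
        show ε / 2 * M φ - 3 * m * e₁ - δ - 2 * (0 + 0) ≤ R φ
        have h6 : ε / 2 * M φ - 3 * m * e₁ - δ ≤ R φ := h3
        linarith
      · rw [if_pos h2]
        exact hbad _ _ (by split_ifs <;> norm_num) zero_le_one (by split_ifs <;> norm_num)
    · rw [if_pos h1]
      exact hbad _ _ zero_le_one (by split_ifs <;> norm_num) (by split_ifs <;> norm_num)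
  have hsum : ∑ φ, (ε / 2 * M φ - 3 * m * e₁ - δ - 2 * ((if ¬ P₁ φ then 1 else 0) + (if ¬ P₂ φ then 1 else 0))) ≤ ∑ φ, R φ :=
    sum_le_sum fun φ _ => hpt φ
  have hL : ∑ φ, (ε / 2 * M φ - 3 * m * e₁ - δ - 2 * ((if ¬ P₁ φ then 1 else 0) + (if ¬ P₂ φ then 1 else 0))) =
      ε / 2 * ∑ φ, M φ - G * (3 * m * e₁) - G * δ - 2 * ((#{γ | ¬ P₁ γ} : ℝ) + #{γ | ¬ P₂ γ}) := by
    have c1 : ∑ x, (if ¬ P₁ x then (1 : ℝ) else 0) = #{γ | ¬ P₁ γ} := by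
      rw [← sum_filter, sum_const, nsmul_eq_mul, mul_one]
    have c2 : ∑ x, (if ¬ P₂ x then (1 : ℝ) else 0) = #{γ | ¬ P₂ γ} := by
      rw [← sum_filter, sum_const, nsmul_eq_mul, mul_one]
    simp only [sum_sub_distrib, ← mul_sum, sum_add_distrib, sum_const, card_univ, Fintype.card_fin, nsmul_eq_mul]
    rw [c1, c2]
    ring
  show ε / 2 * (mean M) - 3 * m * e₁ - δ - 4 * η ≤ mean R
  unfold Pool.Agent.FR.mean
  rw [Fintype.card_fin, le_div_iff₀ hG0]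
  rw [hL] at hsum
  have e1 : (ε / 2 * ((∑ x, M x) / G) - 3 * m * e₁ - δ - 4 * η) * G = ε / 2 * ∑ φ, M φ - G * (3 * m * e₁) - G * δ - 4 * (η * G) := by
    field_simp
  rw [e1]
  linarith

end Pool.Agent.FP
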